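import Pool.Agent.Helper78.LK.Goals

/-!
# Project LK (MP_5a63b6_lc), packet CRO: one crossing (helper45)
-/

set_option autoImplicit false

namespace Pool.Agent.Helper45.LK

open Pool.Agent.Helper50.KP Pool.Agent.Helper78.LK

theorem sn_sq (k x : ℕ) : sn k x * sn k x = 1 := by
  unfold sn
  split_ifs <;> norm_num

theorem gCRO (hGOD : GOD) : CRO := by
  intro k T cl hG x s d e hx1 hx2 hs
  have hx0 : x ≠ 0 := by omega
  by_cases hT : x ∈ T
  · have hfr : (datOf k T cl).fr x = true := by simp [datOf, hT]
    have hc : ∀ (o b : Bool) (n : ℕ), (n = 0 ∨ n = 1) → cl (tm k x o + n) = cl (tm k x o) := by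
      intro o _ n hn
      rcases hn with rfl | rfl
      · rfl
      · exact (hG.2.1 x hT hx1 hx2 o).symm
    have h1 : cl (tm k x s + if d then 0 else 1) = cl (tm k x s) :=
      hc s d _ (by cases d <;> simp)
    have h2 : cl (tm k x (!s) + if e then 0 else 1) = cl (tm k x (!s)) :=
      hc (!s) e _ (by cases e <;> simp)
    have h3 : cl (tm k x (!s) + if e then 1 else 0) = cl (tm k x (!s)) :=
      hc (!s) e _ (by cases e <;> simp)
    have h4 : cl (tm k x s + if d then 1 else 0) = cl (tm k x s) :=
      hc s d _ (by cases d <;> simp)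
    rw [h1, h2, h3, h4]
    have hfree := Pc.free (D := datOf k T cl) s x (cl (tm k x s), d) (cl (tm k x (!s)), e) hfr
    have hch : ch (datOf k T cl) s (cl (tm k x s), d) (cl (tm k x (!s)), e) =
        (if x ∈ T then 1 else 0) := by
      have hg := (hGOD.2 k T cl hG).2.2 x hT hx1 hx2
      rw [if_pos hT]
      have h5 : (if s then (datOf k T cl).g (cl (tm k x s)) (cl (tm k x (!s)))
          else (datOf k T cl).g (cl (tm k x (!s))) (cl (tm k x s))) = sn k x := by
        cases s
        · simpa using hg
        · simpa using hg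
      show (if s then (datOf k T cl).g (cl (tm k x s)) (cl (tm k x (!s)))
          else (datOf k T cl).g (cl (tm k x (!s))) (cl (tm k x s))) * (sg s * sg d * sg e) = 1
      rw [h5, ← hs]
      exact sn_sq k x
    rw [hch] at hfree
    exact hfree
  · have hfr : (datOf k T cl).fr x = false := by simp [datOf, hT, hx0]
    have hfix := Pc.fix (D := datOf k T cl) s x d e hfr
    rw [if_neg hT]
    have e1 : (if (!e) = true then 0 else 1 : ℕ) = if e then 1 else 0 := by cases e <;> rfl
    have e2 : (if (!d) = true then 0 else 1 : ℕ) = if d then 1 else 0 := by cases d <;> rfl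
    have h1 : (datOf k T cl).l x (!s) (!e) = cl (tm k x (!s) + if e then 1 else 0) := by
      show cl (tm k x (!s) + if (!e) = true then 0 else 1) = _
      rw [e1]
    have h2 : (datOf k T cl).l x s (!d) = cl (tm k x s + if d then 1 else 0) := by
      show cl (tm k x s + if (!d) = true then 0 else 1) = _
      rw [e2]
    rw [h1, h2] at hfix
    exact hfix

end Pool.Agent.Helper45.LK
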